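import Pool.Agent.X234.PK.Rec

/-!
The closed form of the weighted sum of forest enumerators over all subsets, and the
recursion characterising the enumerator of uprooted trees.
-/

namespace Pool.Agent.X234.PK

open Finset

open scoped Classical

variable {α : Type*} [Fintype α] [LinearOrder α]

noncomputable def D (q : ℝ) (S A : Finset α) : ℝ :=
  ∑ T ∈ S.powerset, q ^ ((#(S \ T)).choose 2) * (q - 1) ^ #T * W q T (T ∩ A)

def IsInit (S A : Finset α) : Prop := A ⊆ S ∧ ∀ a ∈ A, ∀ s ∈ S, s < a → s ∈ A

omit [Fintype α] in
theorem sum_powerset_powerset (S : Finset α) (g : Finset α → Finset α → ℝ) :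
    ∑ T ∈ S.powerset, ∑ V ∈ T.powerset, g T V
      = ∑ V ∈ S.powerset, ∑ X ∈ (S \ V).powerset, g (V ∪ X) V := by
  rw [Finset.sum_sigma', Finset.sum_sigma']
  refine Finset.sum_bij' (fun x _ => (⟨x.2, x.1 \ x.2⟩ : Σ _ : Finset α, Finset α))
    (fun x _ => (⟨x.1 ∪ x.2, x.1⟩ : Σ _ : Finset α, Finset α)) ?_ ?_ ?_ ?_ ?_
  · rintro ⟨T, V⟩ h
    simp only [mem_sigma, mem_powerset] at h ⊢
    exact ⟨h.2.trans h.1, sdiff_subset_sdiff h.1 (le_refl _)⟩
  · rintro ⟨V, X⟩ h
    simp only [mem_sigma, mem_powerset] at h ⊢
    exact ⟨union_subset h.1 (h.2.trans sdiff_subset), subset_union_left⟩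
  · rintro ⟨T, V⟩ h
    simp only [mem_sigma, mem_powerset] at h ⊢
    rw [union_sdiff_of_subset h.2]
  · rintro ⟨V, X⟩ h
    simp only [mem_sigma, mem_powerset] at h ⊢
    have : (V ∪ X) \ V = X := by
      rw [union_sdiff_left]
      exact sdiff_eq_self_of_disjoint (disjoint_sdiff.symm.mono_left h.2)
    rw [this]
  · rintro ⟨T, V⟩ h
    simp only [mem_sigma, mem_powerset] at h ⊢
    rw [union_sdiff_of_subset h.2]

theorem D_empty (q : ℝ) (S : Finset α) : D q S ∅ = q ^ ((#S).choose 2) := by
  unfold D
  rw [Finset.sum_eq_single_of_mem ∅ (by simp)]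
  · rw [W_empty]; simp
  · intro T _ hT
    rw [inter_empty, W_empty_roots (nonempty_iff_ne_empty.2 hT), mul_zero]

theorem D_eq (q : ℝ) : ∀ (n : ℕ) (S : Finset α), #S = n → ∀ (m : ℕ) (A : Finset α), #A = m →
    IsInit S A → D q S A = q ^ ((#S).choose 2 + #A) := by
  intro n
  induction n using Nat.strong_induction_on with
  | _ n ihn =>
    intro S hS m
    induction m with
    | zero =>
      intro A hA _
      rw [Finset.card_eq_zero] at hA
      subst hA
      rw [D_empty]; simp
    | succ m ihm =>
      intro A hA hI
      have hne : A.Nonempty := by rw [← Finset.card_pos]; omega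
      obtain ⟨r, hr, hmax⟩ : ∃ r ∈ A, ∀ a ∈ A, a ≤ r := ⟨A.max' hne, A.max'_mem hne, fun a ha => A.le_max' a ha⟩
      have hrS : r ∈ S := hI.1 hr
      set S' := S.erase r with hS'
      set A' := A.erase r with hA'
      have hSi : insert r S' = S := insert_erase hrS
      have hrS' : r ∉ S' := notMem_erase _ _
      have hcS : #S' + 1 = #S := card_erase_add_one hrS
      have hcA : #A' + 1 = #A := card_erase_add_one hr
      have hI1 : IsInit S A' := by
        refine ⟨(erase_subset _ _).trans hI.1, fun a ha s hs hsa => ?_⟩
        rw [hA', mem_erase] at ha ⊢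
        exact ⟨(lt_of_lt_of_le hsa (hmax a ha.2)).ne, hI.2 a ha.2 s hs hsa⟩
      have hI2 : ∀ V, IsInit (S' \ V) (A' \ V) := by
        intro V
        refine ⟨sdiff_subset_sdiff (erase_subset_erase _ hI.1) (le_refl _), fun a ha s hs hsa => ?_⟩
        rw [mem_sdiff] at ha hs ⊢
        exact ⟨hI1.2 a ha.1 s (mem_of_mem_erase hs.1) hsa, hs.2⟩
      have hI3 : IsInit S' S' := ⟨le_refl _, fun _ _ s hs _ => hs⟩
      have hA'S' : A' ⊆ S' := erase_subset_erase _ hI.1
      -- split on membership of r
      have split : ∀ B : Finset α, D q S B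
          = ∑ T ∈ S'.powerset, q ^ ((#(S \ T)).choose 2) * (q - 1) ^ #T * W q T (T ∩ B)
          + ∑ T ∈ S'.powerset, q ^ ((#(S' \ T)).choose 2) * (q - 1) ^ (#T + 1)
              * W q (insert r T) (insert r T ∩ B) := by
        intro B
        unfold D
        rw [← hSi, Finset.sum_powerset_insert hrS']
        congr 1
        refine Finset.sum_congr rfl fun T hT => ?_
        rw [mem_powerset] at hT
        have hrT : r ∉ T := fun h => hrS' (hT h)
        have e : insert r S' \ insert r T = S' \ T := by
          ext x
          simp only [mem_sdiff, mem_insert, not_or]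
          constructor
          · rintro ⟨h1, h2, h3⟩
            exact ⟨h1.resolve_left h2, h3⟩
          · rintro ⟨h1, h2⟩
            exact ⟨Or.inr h1, fun e => hrS' (e ▸ h1), h2⟩
        rw [card_insert_of_notMem hrT, e]
      have e1 : D q S A = D q S A' + (q - 1) * q ^ #A' * D q S' S' := by
        rw [split A, split A', add_assoc]
        congr 1
        · refine Finset.sum_congr rfl fun T hT => ?_
          rw [mem_powerset] at hT
          have hrT : r ∉ T := fun h => hrS' (hT h)
          congr 2
          ext x
          simp only [mem_inter, hA', mem_erase]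
          constructor
          · rintro ⟨h1, h2⟩; exact ⟨h1, fun e => hrT (e ▸ h1), h2⟩
          · rintro ⟨h1, h2, h3⟩; exact ⟨h1, h3⟩
        · have step : ∀ T ∈ S'.powerset, q ^ ((#(S' \ T)).choose 2) * (q - 1) ^ (#T + 1)
              * W q (insert r T) (insert r T ∩ A)
              = q ^ ((#(S' \ T)).choose 2) * (q - 1) ^ (#T + 1)
              * W q (insert r T) (insert r T ∩ A')
              + ∑ V ∈ T.powerset, q ^ ((#(S' \ T)).choose 2) * (q - 1) ^ (#T + 1) *
                (q ^ #(V ∩ A') * (W q V V * W q (T \ V) (T \ V ∩ (A' \ V)))) := by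
            intro T hT
            rw [mem_powerset] at hT
            have hrT : r ∉ T := fun h => hrS' (hT h)
            rw [W_rec (r := r) (mem_insert_self _ _) (mem_inter.2 ⟨mem_insert_self _ _, hr⟩),
              mul_add, erase_insert hrT]
            congr 1
            · congr 2
              ext x
              simp only [mem_erase, mem_inter, mem_insert, hA']
              tauto
            · rw [Finset.mul_sum]
              refine Finset.sum_congr rfl fun V hV => ?_
              rw [mem_powerset] at hV
              congr 1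
              congr 3
              · ext x
                simp only [mem_filter, mem_inter, hA', mem_erase]
                constructor
                · rintro ⟨h1, h2⟩
                  exact ⟨h1, h2.ne, hI.2 r hr x (mem_of_mem_erase (hT (hV h1))) h2⟩
                · rintro ⟨h1, h2, h3⟩
                  exact ⟨h1, lt_of_le_of_ne (hmax x h3) h2⟩
              · ext x
                simp only [mem_sdiff, mem_erase, mem_inter, mem_insert, hA']
                tauto
          rw [Finset.sum_congr rfl step, Finset.sum_add_distrib]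
          congr 1
          rw [sum_powerset_powerset]
          unfold D
          rw [Finset.mul_sum]
          refine Finset.sum_congr rfl fun V hV => ?_
          rw [mem_powerset] at hV
          have ih := ihn (#(S' \ V)) (by
            have := card_le_card (sdiff_subset (s := S') (t := V)); omega) (S' \ V) rfl
            (#(A' \ V)) (A' \ V) rfl (hI2 V)
          have hcard : #(V ∩ A') + #(A' \ V) = #A' := by
            rw [inter_comm]; exact card_inter_add_card_sdiff _ _
          have inter1 : ∑ X ∈ (S' \ V).powerset, q ^ ((#(S' \ (V ∪ X))).choose 2)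
              * (q - 1) ^ (#(V ∪ X) + 1) * (q ^ #(V ∩ A') *
                (W q V V * W q ((V ∪ X) \ V) ((V ∪ X) \ V ∩ (A' \ V))))
              = (q - 1) ^ (#V + 1) * q ^ #(V ∩ A') * W q V V * D q (S' \ V) (A' \ V) := by
            unfold D
            rw [Finset.mul_sum]
            refine Finset.sum_congr rfl fun X hX => ?_
            rw [mem_powerset] at hX
            have hd : Disjoint V X := disjoint_sdiff.mono_right hX
            have h1 : (V ∪ X) \ V = X := by
              rw [union_sdiff_left]
              exact sdiff_eq_self_of_disjoint hd.symm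
            have h2 : S' \ (V ∪ X) = (S' \ V) \ X := by
              ext x
              simp only [mem_union, mem_sdiff]
              tauto
            rw [h1, card_union_of_disjoint hd, h2]
            rw [pow_add (q - 1) (#V + #X) 1, pow_add (q - 1) (#V) (#X), pow_add (q - 1) (#V) 1]
            ring
          rw [inter1, ih]
          have h3 : V ∩ S' = V := inter_eq_left.2 hV
          rw [h3, ← hcard, pow_add, pow_add, pow_add]
          ring
      rw [e1, ihm A' (by omega) hI1, ihn (#S') (by omega) S' rfl (#S') S' rfl hI3]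
      have hch : (#S).choose 2 = (#S').choose 2 + #S' := by
        rw [← hcS, Nat.choose_succ_succ' (#S') 1, Nat.choose_one_right]; ring
      rw [hch, ← hcA]
      ring

/-- the enumerator of uprooted trees on `T` -/
noncomputable def Upr (q : ℝ) (T : Finset α) : ℝ :=
  ∑ r ∈ T, W q (T.erase r) (T.filter (fun s => s < r))

omit [Fintype α] in
theorem sum_pow_lt (q : ℝ) (S : Finset α) :
    (q - 1) * ∑ r ∈ S, q ^ #(S.filter (fun s => s < r)) = q ^ #S - 1 := by
  induction S using Finset.induction_on_max with
  | empty => simp
  | insert a s h ih =>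
    have ha : a ∉ s := fun h' => lt_irrefl _ (h a h')
    rw [sum_insert ha, card_insert_of_notMem ha]
    have e1 : (insert a s).filter (fun x => x < a) = s := by
      ext x
      simp only [mem_filter, mem_insert]
      constructor
      · rintro ⟨h1 | h1, h2⟩
        · exact absurd h2 (h1 ▸ lt_irrefl _)
        · exact h1
      · intro h1; exact ⟨Or.inr h1, h x h1⟩
    have e2 : ∀ r ∈ s, (insert a s).filter (fun x => x < r) = s.filter (fun x => x < r) := by
      intro r hr
      ext x
      simp only [mem_filter, mem_insert]
      constructor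
      · rintro ⟨h1 | h1, h2⟩
        · subst h1; exact absurd h2 (not_lt.2 (h r hr).le)
        · exact ⟨h1, h2⟩
      · rintro ⟨h1, h2⟩; exact ⟨Or.inr h1, h2⟩
    rw [e1, Finset.sum_congr rfl (fun r hr => by rw [e2 r hr]), mul_add, ih]
    ring

theorem star (q : ℝ) (S : Finset α) :
    ∑ T ∈ S.powerset, q ^ ((#(S \ T)).choose 2) * (q - 1) ^ #T * Upr q T
      = q ^ ((#S - 1).choose 2) * (q ^ #S - 1) := by
  have h1 : ∀ T ∈ S.powerset, q ^ ((#(S \ T)).choose 2) * (q - 1) ^ #T * Upr q T
      = ∑ r ∈ S, if r ∈ T then q ^ ((#(S \ T)).choose 2) * (q - 1) ^ #T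
          * W q (T.erase r) (T.filter (fun s => s < r)) else 0 := by
    intro T hT
    rw [mem_powerset] at hT
    unfold Upr
    rw [Finset.mul_sum, ← Finset.sum_filter]
    refine Finset.sum_congr ?_ fun _ _ => rfl
    ext x
    simp only [mem_filter]
    exact ⟨fun h => ⟨hT h, h⟩, fun h => h.2⟩
  rw [Finset.sum_congr rfl h1, Finset.sum_comm, ← sum_pow_lt q S, Finset.mul_sum, Finset.mul_sum]
  refine Finset.sum_congr rfl fun r hr => ?_
  have hSi : insert r (S.erase r) = S := insert_erase hr
  have hrS' : r ∉ S.erase r := notMem_erase _ _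
  have hcS : #(S.erase r) + 1 = #S := card_erase_add_one hr
  have hfil : (S.erase r).filter (fun s => s < r) = S.filter (fun s => s < r) := by
    ext x
    simp only [mem_filter, mem_erase]
    exact ⟨fun h => ⟨h.1.2, h.2⟩, fun h => ⟨⟨h.2.ne, h.1⟩, h.2⟩⟩
  have hD := D_eq q (#(S.erase r)) (S.erase r) rfl _ ((S.erase r).filter (fun s => s < r)) rfl
    ⟨filter_subset _ _, fun a ha s hs hsa => by
      rw [mem_filter] at ha ⊢
      exact ⟨hs, hsa.trans ha.2⟩⟩
  have hL : (∑ T ∈ S.powerset, if r ∈ T then q ^ ((#(S \ T)).choose 2) * (q - 1) ^ #T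
          * W q (T.erase r) (T.filter (fun s => s < r)) else 0)
      = (q - 1) * D q (S.erase r) ((S.erase r).filter (fun s => s < r)) := by
    conv_lhs => rw [← hSi]
    rw [Finset.sum_powerset_insert hrS', Finset.sum_eq_zero, zero_add]
    · unfold D
      rw [Finset.mul_sum]
      refine Finset.sum_congr rfl fun T hT => ?_
      rw [mem_powerset] at hT
      have hrT : r ∉ T := fun h => hrS' (hT h)
      rw [if_pos (mem_insert_self _ _), card_insert_of_notMem hrT, erase_insert hrT]
      have e1 : insert r (S.erase r) \ insert r T = (S.erase r) \ T := by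
        ext x
        simp only [mem_sdiff, mem_insert, not_or]
        constructor
        · rintro ⟨h1, h2, h3⟩
          exact ⟨h1.resolve_left h2, h3⟩
        · rintro ⟨h1, h2⟩
          exact ⟨Or.inr h1, fun e => hrS' (e ▸ h1), h2⟩
      have e2 : (insert r T).filter (fun s => s < r) = T ∩ (S.erase r).filter (fun s => s < r) := by
        ext x
        simp only [mem_filter, mem_insert, mem_inter]
        constructor
        · rintro ⟨h1 | h1, h2⟩
          · exact absurd h2 (h1 ▸ lt_irrefl _)
          · exact ⟨h1, hT h1, h2⟩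
        · rintro ⟨h1, h2, h3⟩; exact ⟨Or.inr h1, h3⟩
      rw [e1, e2]
      ring
    · intro T hT
      rw [mem_powerset] at hT
      exact if_neg (fun h => hrS' (hT h))
  rw [hL, hD, hfil, pow_add]
  have : #S - 1 = #(S.erase r) := by omega
  rw [this]
  ring

end Pool.Agent.X234.PK
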