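import Mathlib

/-!
Rooted forests as parent functions, and the enumerator of inversions.
-/

namespace Pool.Agent.X234.PK

open Finset

open scoped Classical

variable {α : Type*}

/-- `b` is a proper ancestor of `a` for the parent function `p`, in other words `a` is a
proper descendant of `b`. -/
def Anc (p : α → Option α) (a b : α) : Prop := Relation.TransGen (fun x y => p x = some y) a b

theorem anc_iff {p : α → Option α} {a b : α} :
    Anc p a b ↔ ∃ w, p a = some w ∧ (b = w ∨ Anc p w b) := by
  unfold Anc
  rw [Relation.TransGen.head'_iff]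
  simp only [Relation.reflTransGen_iff_eq_or_transGen]

theorem not_anc_of_none {p : α → Option α} {a b : α} (h : p a = none) : ¬ Anc p a b := by
  rw [anc_iff]; rintro ⟨w, hw, _⟩; rw [h] at hw; cases hw

/-- forests on the vertex set `S`, all of whose roots are in `A` -/
def IsForest (S A : Finset α) (p : α → Option α) : Prop :=
  WellFounded (fun w v => p v = some w) ∧ (∀ v, v ∉ S → p v = none) ∧
    (∀ v w, p v = some w → w ∈ S) ∧ (∀ v ∈ S, p v = none → v ∈ A)

/-- gluing `p₁` (on `U`) below the vertex `r`, and `p₂` elsewhere -/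
noncomputable def glue (r : α) (U : Finset α) (p₁ p₂ : α → Option α) : α → Option α :=
  fun v => if v ∈ U then some ((p₁ v).getD r) else p₂ v

noncomputable def cut1 (r : α) (U : Finset α) (p : α → Option α) : α → Option α :=
  fun v => if v ∈ U then (if p v = some r then none else p v) else none

noncomputable def cut2 (U : Finset α) (p : α → Option α) : α → Option α :=
  fun v => if v ∈ U then none else p v

theorem anc_mem {S A : Finset α} {p : α → Option α} (h : IsForest S A p) {v x : α}
    (hv : Anc p v x) : v ∈ S := by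
  by_contra hc
  exact not_anc_of_none (h.2.1 v hc) hv

section glue

variable {r : α} {U B S' A' : Finset α} {p₁ p₂ : α → Option α}

theorem anc_glue_out (h₂ : IsForest S' A' p₂) (hU : ∀ v ∈ S', v ∉ U) {v x : α} (hv : v ∉ U) :
    Anc (glue r U p₁ p₂) v x ↔ Anc p₂ v x := by
  induction v using h₂.1.induction with
  | _ v ih =>
    rw [anc_iff, anc_iff]
    have e : glue r U p₁ p₂ v = p₂ v := by simp [glue, hv]
    rw [e]
    constructor
    · rintro ⟨w, hw, h⟩
      refine ⟨w, hw, ?_⟩
      rcases h with h | h
      · exact Or.inl h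
      · exact Or.inr ((ih w hw (hU _ (h₂.2.2.1 _ _ hw))).1 h)
    · rintro ⟨w, hw, h⟩
      refine ⟨w, hw, ?_⟩
      rcases h with h | h
      · exact Or.inl h
      · exact Or.inr ((ih w hw (hU _ (h₂.2.2.1 _ _ hw))).2 h)

theorem anc_glue_in (h₁ : IsForest U B p₁) (h₂ : IsForest S' A' p₂) (hr : r ∉ S') (hrU : r ∉ U)
    {v x : α} (hv : v ∈ U) :
    Anc (glue r U p₁ p₂) v x ↔ x = r ∨ Anc p₁ v x := by
  have hr0 : glue r U p₁ p₂ r = none := by simp [glue, hrU, h₂.2.1 r hr]
  induction v using h₁.1.induction with
  | _ v ih =>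
    rw [anc_iff]
    rcases h : p₁ v with _ | w
    · have e : glue r U p₁ p₂ v = some r := by simp [glue, hv, h]
      rw [e]
      constructor
      · rintro ⟨w, hw, hh⟩
        obtain rfl : r = w := by simpa using hw
        rcases hh with hh | hh
        · exact Or.inl hh
        · exact absurd hh (not_anc_of_none hr0)
      · rintro (hh | hh)
        · exact ⟨r, rfl, Or.inl hh⟩
        · exact absurd hh (not_anc_of_none h)
    · have e : glue r U p₁ p₂ v = some w := by simp [glue, hv, h]
      have hw : w ∈ U := h₁.2.2.1 _ _ h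
      have ih' := ih w h hw
      rw [e, anc_iff (p := p₁) (a := v)]
      constructor
      · rintro ⟨w', hw', hh⟩
        obtain rfl : w = w' := by simpa using hw'
        rcases hh with hh | hh
        · exact Or.inr ⟨w, h, Or.inl hh⟩
        · rcases ih'.1 hh with h3 | h3
          · exact Or.inl h3
          · exact Or.inr ⟨w, h, Or.inr h3⟩
      · rintro (hh | ⟨w', hw', hh⟩)
        · exact ⟨w, rfl, Or.inr (ih'.2 (Or.inl hh))⟩
        · obtain rfl : w = w' := by rw [h] at hw'; simpa using hw'
          rcases hh with hh | hh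
          · exact ⟨w, rfl, Or.inl hh⟩
          · exact ⟨w, rfl, Or.inr (ih'.2 (Or.inr hh))⟩

theorem wf_glue (h₁ : IsForest U B p₁) (h₂ : IsForest S' A' p₂) (hU : ∀ v ∈ S', v ∉ U)
    (hr : r ∉ S') (hrU : r ∉ U) :
    WellFounded (fun w v => glue r U p₁ p₂ v = some w) := by
  have hr0 : glue r U p₁ p₂ r = none := by simp [glue, hrU, h₂.2.1 r hr]
  have hout : ∀ v, v ∉ U → Acc (fun w v => glue r U p₁ p₂ v = some w) v := by
    intro v
    induction v using h₂.1.induction with
    | _ v ih =>
      intro hv
      refine ⟨_, fun w hw => ?_⟩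
      have e : glue r U p₁ p₂ v = p₂ v := by simp [glue, hv]
      rw [e] at hw
      exact ih w hw (hU _ (h₂.2.2.1 _ _ hw))
  refine ⟨fun v => ?_⟩
  by_cases hv : v ∈ U
  · revert hv
    induction v using h₁.1.induction with
    | _ v ih =>
      intro hv
      refine ⟨_, fun w hw => ?_⟩
      rcases h : p₁ v with _ | w'
      · have e : glue r U p₁ p₂ v = some r := by simp [glue, hv, h]
        rw [e] at hw
        obtain rfl : r = w := by simpa using hw
        exact hout _ hrU
      · have e : glue r U p₁ p₂ v = some w' := by simp [glue, hv, h]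
        rw [e] at hw
        obtain rfl : w' = w := by simpa using hw
        exact ih w' h (h₁.2.2.1 _ _ h)
  · exact hout v hv

end glue

section inv

variable [Fintype α] [LinearOrder α]

/-- the number of inversions: pairs `y < x` with `x` a proper ancestor of `y` -/
noncomputable def inv (p : α → Option α) : ℕ := ∑ y, #{x | y < x ∧ Anc p y x}

theorem inv_glue {r : α} {U B S' A' : Finset α} {p₁ p₂ : α → Option α}
    (h₁ : IsForest U B p₁) (h₂ : IsForest S' A' p₂) (hU : ∀ v ∈ S', v ∉ U)
    (hr : r ∉ S') (hrU : r ∉ U) :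
    inv (glue r U p₁ p₂) = #{u ∈ U | u < r} + inv p₁ + inv p₂ := by
  have key : ∀ y, #{x | y < x ∧ Anc (glue r U p₁ p₂) y x}
      = (if y ∈ U ∧ y < r then 1 else 0) + #{x | y < x ∧ Anc p₁ y x}
        + #{x | y < x ∧ Anc p₂ y x} := by
    intro y
    by_cases hy : y ∈ U
    · have z2 : #{x | y < x ∧ Anc p₂ y x} = 0 := by
        rw [Finset.card_eq_zero, Finset.filter_eq_empty_iff]
        rintro x - ⟨_, h⟩
        exact (hU y (anc_mem h₂ h)) hy
      rw [z2, add_zero]
      have hset : (univ.filter (fun x => y < x ∧ Anc (glue r U p₁ p₂) y x))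
          = (univ.filter (fun x => x = r ∧ y < r)) ∪ univ.filter (fun x => y < x ∧ Anc p₁ y x) := by
        ext x
        simp only [mem_filter, mem_univ, true_and, mem_union]
        rw [anc_glue_in h₁ h₂ hr hrU hy]
        constructor
        · rintro ⟨h, h' | h'⟩
          · exact Or.inl ⟨h', h' ▸ h⟩
          · exact Or.inr ⟨h, h'⟩
        · rintro (⟨h, h'⟩ | ⟨h, h'⟩)
          · exact ⟨h ▸ h', Or.inl h⟩
          · exact ⟨h, Or.inr h'⟩
      rw [hset, Finset.card_union_of_disjoint]
      · congr 1
        by_cases hyr : y < r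
        · rw [if_pos ⟨hy, hyr⟩, Finset.card_eq_one]
          exact ⟨r, by ext x; simp [hyr]⟩
        · rw [if_neg (fun h => hyr h.2), Finset.card_eq_zero, Finset.filter_eq_empty_iff]
          rintro x - ⟨_, h⟩
          exact hyr h
      · rw [Finset.disjoint_left]
        intro x hx hx'
        simp only [mem_filter, mem_univ, true_and] at hx hx'
        obtain ⟨rfl, _⟩ := hx
        have hxx : ∀ v, Anc p₁ v x → x ∈ U := by
          intro v hv
          induction hv with
          | single h => exact h₁.2.2.1 _ _ h
          | tail _ h _ => exact h₁.2.2.1 _ _ h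
        exact hrU (hxx y hx'.2)
    · have z1 : #{x | y < x ∧ Anc p₁ y x} = 0 := by
        rw [Finset.card_eq_zero, Finset.filter_eq_empty_iff]
        rintro x - ⟨_, h⟩
        exact hy (anc_mem h₁ h)
      rw [z1, if_neg (fun h => hy h.1), zero_add, zero_add]
      congr 1
      ext x
      simp only [mem_filter, mem_univ, true_and]
      rw [anc_glue_out h₂ hU hy]
  unfold inv
  rw [Finset.sum_congr rfl (fun y _ => key y), Finset.sum_add_distrib, Finset.sum_add_distrib]
  congr 2
  rw [← Finset.sum_filter, ← Finset.card_eq_sum_ones]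
  congr 1
  ext x
  simp

end inv

end Pool.Agent.X234.PK
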