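import Pool.Agent.X234.PK.Dsum

/-!
Prime parking functions: the decomposition of an arbitrary sequence, and the recursion for the
sum enumerator.
-/

namespace Pool.Agent.X234.PK

open Finset Filter Topology

open scoped Classical

variable {α : Type*} [Fintype α] [LinearOrder α]

noncomputable def box (l M : ℕ) (S : Finset α) : Finset (α → ℕ) :=
  Fintype.piFinset (fun v => if v ∈ S then Ioc l M else {0})

theorem mem_box {l M : ℕ} {S : Finset α} {a : α → ℕ} :
    a ∈ box l M S ↔ (∀ v ∈ S, l < a v ∧ a v ≤ M) ∧ ∀ v, v ∉ S → a v = 0 := by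
  unfold box
  rw [Fintype.mem_piFinset]
  constructor
  · intro h
    refine ⟨fun v hv => ?_, fun v hv => ?_⟩
    · have := h v; rw [if_pos hv, mem_Ioc] at this; exact this
    · have := h v; rw [if_neg hv, mem_singleton] at this; exact this
  · rintro ⟨h1, h2⟩ v
    by_cases hv : v ∈ S
    · rw [if_pos hv, mem_Ioc]; exact h1 v hv
    · rw [if_neg hv, mem_singleton]; exact h2 v hv

theorem sum_box (p : ℝ) (l M : ℕ) (S : Finset α) :
    ∑ a ∈ box l M S, p ^ (∑ v, a v) = (∑ j ∈ Ioc l M, p ^ j) ^ #S := by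
  unfold box
  simp_rw [← Finset.prod_pow_eq_pow_sum]
  rw [← Finset.prod_univ_sum (fun v => if v ∈ S then Ioc l M else {0}) (fun _ j => p ^ j)]
  have : ∀ v : α, ∑ j ∈ (if v ∈ S then Ioc l M else {0}), p ^ j
      = if v ∈ S then ∑ j ∈ Ioc l M, p ^ j else 1 := by
    intro v; split_ifs <;> simp
  rw [Finset.prod_congr rfl (fun v _ => this v), Finset.prod_ite, Finset.prod_const]
  simp

def IsSph (T : Finset α) (a : α → ℕ) : Prop :=
  ∀ j, 1 ≤ j → j < #T → j + 1 ≤ #(T.filter (fun v => a v ≤ j))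

noncomputable def sph (T : Finset α) : Finset (α → ℕ) := (box 0 #T T).filter (IsSph T)

def Good (S : Finset α) (a : α → ℕ) (T : Finset α) : Prop :=
  T ⊆ S ∧ T.Nonempty ∧ (∀ v ∈ T, a v ≤ #T) ∧ (∀ v ∈ S, v ∉ T → #T < a v) ∧
    ∀ j, 1 ≤ j → j < #T → j + 1 ≤ #(T.filter (fun v => a v ≤ j))

omit [Fintype α] in
theorem good_eq {S T : Finset α} {a : α → ℕ} (h : Good S a T) :
    S.filter (fun v => a v ≤ #T) = T := by
  ext v
  rw [mem_filter]
  constructor
  · rintro ⟨h1, h2⟩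
    by_contra h3
    exact absurd h2 (not_le.2 (h.2.2.2.1 v h1 h3))
  · intro h1
    exact ⟨h.1 h1, h.2.2.1 v h1⟩

omit [Fintype α] in
theorem good_card_le {S T T' : Finset α} {a : α → ℕ} (h : Good S a T) (h' : Good S a T') :
    #T' ≤ #T := by
  by_contra hc
  push Not at hc
  have h1 := h'.2.2.2.2 #T (card_pos.2 h.2.1) hc
  have h2 : #(T'.filter (fun v => a v ≤ #T)) ≤ #(S.filter (fun v => a v ≤ #T)) :=
    card_le_card (filter_subset_filter _ h'.1)
  rw [good_eq h] at h2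
  omega

omit [Fintype α] in
theorem good_unique {S T T' : Finset α} {a : α → ℕ} (h : Good S a T) (h' : Good S a T') :
    T = T' := by
  have := le_antisymm (good_card_le h h') (good_card_le h' h)
  rw [← good_eq h, ← good_eq h', this]

omit [Fintype α] in
theorem good_exists {S : Finset α} {a : α → ℕ} (h : ∃ v ∈ S, a v ≤ 1) : ∃ T, Good S a T := by
  obtain ⟨v₀, hv₀, hav₀⟩ := h
  have hex : ∃ k, 1 ≤ k ∧ #(S.filter (fun v => a v ≤ k)) ≤ k :=
    ⟨#S, card_pos.2 ⟨v₀, hv₀⟩, card_le_card (filter_subset _ _)⟩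
  obtain ⟨hk1, hk2⟩ := Nat.find_spec hex
  have hmin : ∀ j, 1 ≤ j → j < Nat.find hex → j + 1 ≤ #(S.filter (fun v => a v ≤ j)) := by
    intro j hj hjk
    have := Nat.find_min hex hjk
    push Not at this
    exact this hj
  set k := Nat.find hex with hk
  have hcard : #(S.filter (fun v => a v ≤ k)) = k := by
    refine le_antisymm hk2 ?_
    rcases Nat.lt_or_ge 1 k with h1 | h1
    · have h2 := hmin (k - 1) (by omega) (by omega)
      have h3 : #(S.filter (fun v => a v ≤ k - 1)) ≤ #(S.filter (fun v => a v ≤ k)) := by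
        refine card_le_card fun v hv => ?_
        rw [mem_filter] at hv ⊢
        exact ⟨hv.1, by omega⟩
      omega
    · have : k = 1 := by omega
      rw [this, Nat.one_le_iff_ne_zero, ← Nat.pos_iff_ne_zero, card_pos]
      exact ⟨v₀, mem_filter.2 ⟨hv₀, hav₀⟩⟩
  refine ⟨S.filter (fun v => a v ≤ k), filter_subset _ _,
    ⟨v₀, mem_filter.2 ⟨hv₀, by omega⟩⟩, ?_, ?_, ?_⟩
  · intro v hv
    rw [hcard]; exact (mem_filter.1 hv).2
  · intro v hv hn
    rw [hcard]
    by_contra hc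
    exact hn (mem_filter.2 ⟨hv, by omega⟩)
  · intro j hj hjk
    rw [hcard] at hjk
    refine (hmin j hj hjk).trans (card_le_card fun v hv => ?_)
    rw [mem_filter] at hv
    rw [mem_filter, mem_filter]
    exact ⟨⟨hv.1, by omega⟩, hv.2⟩

omit [Fintype α] in
theorem not_good {S T : Finset α} {a : α → ℕ} (h : ∀ v ∈ S, 1 < a v) : ¬ Good S a T := by
  rintro ⟨h1, ⟨v, hv⟩, h3, h4, h5⟩
  have hT : 1 ≤ #T := card_pos.2 ⟨v, hv⟩
  rcases Nat.lt_or_ge 1 #T with h6 | h6
  · have h7 := h5 1 le_rfl h6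
    have h8 : (T.filter (fun v => a v ≤ 1)).Nonempty := by rw [← card_pos]; omega
    obtain ⟨w, hw⟩ := h8
    rw [mem_filter] at hw
    have := h w (h1 hw.1)
    omega
  · have h7 := h3 v hv
    have := h v (h1 hv)
    omega

theorem good_sum (p : ℝ) {S T : Finset α} {M : ℕ} (hM : #S ≤ M) (hT : T ⊆ S)
    (hne : T.Nonempty) :
    ∑ a ∈ (box 0 M S).filter (fun a => Good S a T), p ^ (∑ v, a v)
      = (∑ b ∈ sph T, p ^ (∑ v, b v)) * (∑ j ∈ Ioc #T M, p ^ j) ^ #(S \ T) := by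
  rw [← sum_box, Finset.sum_mul_sum, ← Finset.sum_product']
  refine Finset.sum_bij' (fun a _ => (fun v => if v ∈ T then a v else 0,
    fun v => if v ∈ T then 0 else a v)) (fun x _ => fun v => if v ∈ T then x.1 v else x.2 v)
    ?_ ?_ ?_ ?_ ?_
  · intro a ha
    rw [mem_filter, mem_box] at ha
    obtain ⟨⟨h1, h2⟩, h3⟩ := ha
    rw [mem_product]
    constructor
    · unfold sph
      rw [mem_filter, mem_box]
      refine ⟨⟨fun v hv => ?_, fun v hv => ?_⟩, fun j hj hjk => ?_⟩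
      · simp only [hv, if_true]
        exact ⟨(h1 v (hT hv)).1, h3.2.2.1 v hv⟩
      · simp [hv]
      · refine (h3.2.2.2.2 j hj hjk).trans (le_of_eq ?_)
        congr 1
        refine filter_congr fun v hv => ?_
        simp [hv]
    · rw [mem_box]
      refine ⟨fun v hv => ?_, fun v hv => ?_⟩
      · rw [Finset.mem_sdiff] at hv
        simp only [hv.2, if_false]
        exact ⟨h3.2.2.2.1 v hv.1 hv.2, (h1 v hv.1).2⟩
      · by_cases hvT : v ∈ T
        · simp [hvT]
        · have : v ∉ S := fun h => hv (Finset.mem_sdiff.2 ⟨h, hvT⟩)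
          simp [hvT, h2 v this]
  · intro x hx
    rw [mem_product] at hx
    obtain ⟨hx1, hx2⟩ := hx
    unfold sph at hx1
    rw [mem_filter, mem_box] at hx1
    rw [mem_box] at hx2
    rw [mem_filter, mem_box]
    have hTM : #T ≤ M := (card_le_card hT).trans hM
    refine ⟨⟨fun v hv => ?_, fun v hv => ?_⟩, hT, hne, ?_, ?_, ?_⟩
    · by_cases hvT : v ∈ T
      · simp only [hvT, if_true]
        exact ⟨(hx1.1.1 v hvT).1, (hx1.1.1 v hvT).2.trans hTM⟩
      · simp only [hvT, if_false]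
        have := hx2.1 v (Finset.mem_sdiff.2 ⟨hv, hvT⟩)
        exact ⟨by omega, this.2⟩
    · have hvT : v ∉ T := fun h => hv (hT h)
      simp only [hvT, if_false]
      exact hx2.2 v (fun h => hv (Finset.mem_sdiff.1 h).1)
    · intro v hv
      simp only [hv, if_true]
      exact (hx1.1.1 v hv).2
    · intro v hv hvT
      simp only [hvT, if_false]
      exact (hx2.1 v (Finset.mem_sdiff.2 ⟨hv, hvT⟩)).1
    · intro j hj hjk
      refine (hx1.2 j hj hjk).trans (le_of_eq ?_)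
      congr 1
      refine filter_congr fun v hv => ?_
      simp [hv]
  · intro a ha
    funext v
    by_cases hv : v ∈ T <;> simp [hv]
  · intro x hx
    rw [mem_product] at hx
    obtain ⟨hx1, hx2⟩ := hx
    unfold sph at hx1
    rw [mem_filter, mem_box] at hx1
    rw [mem_box] at hx2
    ext v
    · by_cases hv : v ∈ T
      · simp [hv]
      · simp [hv, hx1.1.2 v hv]
    · by_cases hv : v ∈ T
      · simp [hv, hx2.2 v (fun h => (Finset.mem_sdiff.1 h).2 hv)]
      · simp [hv]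
  · intro a ha
    simp only
    rw [← pow_add, ← Finset.sum_add_distrib]
    congr 1
    refine Finset.sum_congr rfl fun v _ => ?_
    by_cases hv : v ∈ T <;> simp [hv]

noncomputable def PP (p : ℝ) (T : Finset α) : ℝ :=
  if T.Nonempty then ∑ b ∈ sph T, p ^ (∑ v, b v) else 0

theorem decomp (p : ℝ) (S : Finset α) {M : ℕ} (hM : #S ≤ M) :
    (∑ j ∈ Ioc 0 M, p ^ j) ^ #S = (∑ j ∈ Ioc 1 M, p ^ j) ^ #S
      + ∑ T ∈ S.powerset, PP p T * (∑ j ∈ Ioc #T M, p ^ j) ^ #(S \ T) := by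
  have key : ∀ a ∈ box 0 M S, p ^ (∑ v, a v)
      = (if ∀ v ∈ S, 1 < a v then p ^ (∑ v, a v) else 0)
        + ∑ T ∈ S.powerset, if Good S a T then p ^ (∑ v, a v) else 0 := by
    intro a _
    by_cases h : ∀ v ∈ S, 1 < a v
    · have h0 : (∑ T ∈ S.powerset, if Good S a T then p ^ (∑ v, a v) else 0) = 0 :=
        Finset.sum_eq_zero fun T _ => if_neg (not_good h)
      rw [if_pos h, h0, add_zero]
    · rw [if_neg h, zero_add]
      push Not at h
      obtain ⟨T, hT⟩ := good_exists h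
      rw [Finset.sum_eq_single_of_mem T (mem_powerset.2 hT.1), if_pos hT]
      intro T' _ hne
      exact if_neg (fun h' => hne (good_unique h' hT))
  rw [← sum_box, Finset.sum_congr rfl key, Finset.sum_add_distrib, Finset.sum_comm]
  congr 1
  · rw [← Finset.sum_filter, ← sum_box]
    refine Finset.sum_congr ?_ fun _ _ => rfl
    ext a
    rw [mem_filter, mem_box, mem_box]
    constructor
    · rintro ⟨⟨h1, h2⟩, h3⟩
      exact ⟨fun v hv => ⟨h3 v hv, (h1 v hv).2⟩, h2⟩
    · rintro ⟨h1, h2⟩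
      exact ⟨⟨fun v hv => ⟨by have := (h1 v hv).1; omega, (h1 v hv).2⟩, h2⟩,
        fun v hv => (h1 v hv).1⟩
  · refine Finset.sum_congr rfl fun T hT => ?_
    rw [mem_powerset] at hT
    rw [← Finset.sum_filter]
    unfold PP
    by_cases hne : T.Nonempty
    · rw [if_pos hne, good_sum p hM hT hne]
    · rw [if_neg hne, zero_mul, Finset.sum_eq_zero]
      intro a ha
      rw [mem_filter] at ha
      exact absurd ha.2.2.1 hne

theorem tendsto_geom {p : ℝ} (h0 : 0 < p) (h1 : p < 1) (l : ℕ) :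
    Tendsto (fun M : ℕ => ∑ j ∈ Ioc l M, p ^ j) atTop (𝓝 (p ^ (l + 1) / (1 - p))) := by
  have e : ∀ᶠ M : ℕ in atTop, (p ^ (l + 1) - p ^ (M + 1)) / (1 - p) = ∑ j ∈ Ioc l M, p ^ j := by
    filter_upwards [eventually_ge_atTop l] with M hM
    have : Ioc l M = Ico (l + 1) (M + 1) := by ext x; simp only [mem_Ioc, mem_Ico]; omega
    rw [this, geom_sum_Ico' h1.ne (by omega)]
  refine Tendsto.congr' e ?_
  have ht : Tendsto (fun M : ℕ => p ^ (M + 1)) atTop (𝓝 0) :=
    (tendsto_pow_atTop_nhds_zero_of_lt_one h0.le h1).comp (tendsto_add_atTop_nat 1)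
  simpa using (tendsto_const_nhds.sub ht).div_const (1 - p)

theorem limit_id {p : ℝ} (h0 : 0 < p) (h1 : p < 1) (S : Finset α) :
    (p ^ (0 + 1) / (1 - p)) ^ #S = (p ^ (1 + 1) / (1 - p)) ^ #S
      + ∑ T ∈ S.powerset, PP p T * (p ^ (#T + 1) / (1 - p)) ^ #(S \ T) := by
  have hl : Tendsto (fun M : ℕ => (∑ j ∈ Ioc 0 M, p ^ j) ^ #S) atTop
      (𝓝 ((p ^ (0 + 1) / (1 - p)) ^ #S)) := (tendsto_geom h0 h1 0).pow _
  have hr : Tendsto (fun M : ℕ => (∑ j ∈ Ioc 1 M, p ^ j) ^ #S
      + ∑ T ∈ S.powerset, PP p T * (∑ j ∈ Ioc #T M, p ^ j) ^ #(S \ T)) atTop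
      (𝓝 ((p ^ (1 + 1) / (1 - p)) ^ #S
      + ∑ T ∈ S.powerset, PP p T * (p ^ (#T + 1) / (1 - p)) ^ #(S \ T))) := by
    refine ((tendsto_geom h0 h1 1).pow _).add (tendsto_finsetSum _ fun T _ => ?_)
    exact ((tendsto_geom h0 h1 #T).pow _).const_mul _
  refine tendsto_nhds_unique hl (hr.congr' ?_)
  filter_upwards [eventually_ge_atTop #S] with M hM
  exact (decomp p S hM).symm

theorem choose_two_add (k m : ℕ) : (k + m).choose 2 = k.choose 2 + m.choose 2 + k * m := by
  induction m with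
  | zero => simp
  | succ m ih =>
    rw [← add_assoc, Nat.choose_succ_succ' (k + m) 1, Nat.choose_succ_succ' m 1, ih,
      Nat.choose_one_right, Nat.choose_one_right]
    ring

noncomputable def XX (q : ℝ) (T : Finset α) : ℝ := q ^ ((#T).choose 2 + 1) * PP q⁻¹ T

theorem star_PP {q : ℝ} (hq : 1 < q) (S : Finset α) :
    ∑ T ∈ S.powerset, q ^ ((#(S \ T)).choose 2) * (q - 1) ^ #T * XX q T
      = q ^ ((#S - 1).choose 2) * (q ^ #S - 1) := by
  have hq0 : (0 : ℝ) < q := by linarith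
  have hq0' : q ≠ 0 := hq0.ne'
  have hq1 : q - 1 ≠ 0 := by
    have : (0 : ℝ) < q - 1 := by linarith
    exact this.ne'
  have hid := limit_id (p := q⁻¹) (inv_pos.2 hq0) (inv_lt_one_of_one_lt₀ hq) S
  have e : ∀ k : ℕ, (q⁻¹) ^ (k + 1) / (1 - q⁻¹) = 1 / (q ^ k * (q - 1)) := by
    intro k
    have : (1 : ℝ) - q⁻¹ = (q - 1) / q := by field_simp
    rw [this, inv_pow, pow_succ]
    field_simp
  rw [e 0, e 1] at hid
  have hsum : ∑ T ∈ S.powerset, q ^ ((#(S \ T)).choose 2) * (q - 1) ^ #T * XX q T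
      = q ^ ((#S).choose 2 + 1) * (q - 1) ^ #S *
        ∑ T ∈ S.powerset, PP q⁻¹ T * ((q⁻¹) ^ (#T + 1) / (1 - q⁻¹)) ^ #(S \ T) := by
    rw [Finset.mul_sum]
    refine Finset.sum_congr rfl fun T hT => ?_
    rw [mem_powerset] at hT
    have hc : #T + #(S \ T) = #S := by rw [add_comm]; exact card_sdiff_add_card_eq_card hT
    rw [e, ← hc, choose_two_add]
    unfold XX
    generalize #(S \ T) = m
    generalize PP q⁻¹ T = P
    rw [div_pow, one_pow, mul_pow, ← pow_mul, pow_add (q - 1) (#T) m]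
    field_simp
    ring
  rw [hsum]
  have h2 : ∑ T ∈ S.powerset, PP q⁻¹ T * ((q⁻¹) ^ (#T + 1) / (1 - q⁻¹)) ^ #(S \ T)
      = (1 / (q ^ 0 * (q - 1))) ^ #S - (1 / (q ^ 1 * (q - 1))) ^ #S := by
    rw [hid]; ring
  rw [h2]
  rcases Nat.eq_zero_or_pos #S with h | h
  · rw [h]; simp
  · obtain ⟨n, hn⟩ : ∃ n, #S = n + 1 := ⟨#S - 1, by omega⟩
    rw [hn, Nat.add_sub_cancel, choose_two_add n 1]
    have a1 : (q - 1) ^ (n + 1) * (1 / (q ^ 0 * (q - 1))) ^ (n + 1) = 1 := by
      rw [← mul_pow]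
      have : (q - 1) * (1 / (q ^ 0 * (q - 1))) = 1 := by field_simp
      rw [this, one_pow]
    have a2 : q ^ (n + 1) * (q - 1) ^ (n + 1) * (1 / (q ^ 1 * (q - 1))) ^ (n + 1) = 1 := by
      rw [← mul_pow, ← mul_pow]
      have : q * (q - 1) * (1 / (q ^ 1 * (q - 1))) = 1 := by field_simp
      rw [this, one_pow]
    have e3 : n.choose 2 + (1 : ℕ).choose 2 + n * 1 + 1 = n.choose 2 + (n + 1) := by
      have : (1 : ℕ).choose 2 = 0 := rfl
      rw [this]; ring
    rw [e3, pow_add]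
    linear_combination q ^ (n.choose 2) * q ^ (n + 1) * a1 - q ^ (n.choose 2) * a2

theorem unique_star {q : ℝ} (hq : 1 < q) {X Y : Finset α → ℝ}
    (h : ∀ S : Finset α, ∑ T ∈ S.powerset, q ^ ((#(S \ T)).choose 2) * (q - 1) ^ #T * X T
      = ∑ T ∈ S.powerset, q ^ ((#(S \ T)).choose 2) * (q - 1) ^ #T * Y T) (S : Finset α) :
    X S = Y S := by
  induction S using Finset.strongInduction with
  | H S ih =>
    have := h S
    rw [← Finset.add_sum_erase _ _ (mem_powerset_self S),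
      ← Finset.add_sum_erase (a := S) _ (fun T => q ^ ((#(S \ T)).choose 2) * (q - 1) ^ #T * Y T)
        (mem_powerset_self S)] at this
    have h2 : ∑ T ∈ S.powerset.erase S, q ^ ((#(S \ T)).choose 2) * (q - 1) ^ #T * X T
        = ∑ T ∈ S.powerset.erase S, q ^ ((#(S \ T)).choose 2) * (q - 1) ^ #T * Y T := by
      refine Finset.sum_congr rfl fun T hT => ?_
      rw [mem_erase, mem_powerset] at hT
      rw [ih T (hT.2.ssubset_of_ne hT.1)]
    rw [h2] at this
    have h3 := add_right_cancel this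
    have hq1 : q - 1 ≠ 0 := by
      have : (0 : ℝ) < q - 1 := by linarith
      exact this.ne'
    simpa [hq1] using h3

end Pool.Agent.X234.PK
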