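import Pool.Agent.X234.PK.Forest

/-!
The recursion of the inversion enumerator of forests, from removing the largest admissible root.
-/

namespace Pool.Agent.X234.PK

open Finset

open scoped Classical

variable {α : Type*} [Fintype α] [LinearOrder α]

noncomputable def forests (S A : Finset α) : Finset (α → Option α) := univ.filter (IsForest S A)

theorem mem_forests {S A : Finset α} {p : α → Option α} : p ∈ forests S A ↔ IsForest S A p := by
  simp [forests]

noncomputable def W (q : ℝ) (S A : Finset α) : ℝ := ∑ p ∈ forests S A, q ^ inv p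

noncomputable def desc (r : α) (p : α → Option α) : Finset α := univ.filter (fun v => Anc p v r)

theorem mem_desc {r : α} {p : α → Option α} {v : α} : v ∈ desc r p ↔ Anc p v r := by
  simp [desc]

theorem isForest_cut1 {S A : Finset α} {p : α → Option α} {r : α} (h : IsForest S A p)
    (hr : p r = none) : IsForest (desc r p) ((desc r p).filter (fun v => p v = some r))
      (cut1 r (desc r p) p) := by
  refine ⟨?_, ?_, ?_, ?_⟩
  · refine Subrelation.wf ?_ h.1
    intro w v hv
    unfold cut1 at hv
    split_ifs at hv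
    exact hv
  · intro v hv
    simp [cut1, hv]
  · intro v w hv
    unfold cut1 at hv
    split_ifs at hv with h1 h2
    rw [mem_desc] at h1 ⊢
    rw [anc_iff] at h1
    obtain ⟨w', hw', h3⟩ := h1
    obtain rfl : w' = w := by rw [hv] at hw'; simpa using hw'.symm
    rcases h3 with h3 | h3
    · exact absurd (h3 ▸ hv) h2
    · exact h3
  · intro v hv hn
    unfold cut1 at hn
    rw [if_pos hv] at hn
    rw [mem_filter]
    refine ⟨hv, ?_⟩
    split_ifs at hn with h2
    · exact h2
    · exact absurd (mem_desc.1 hv) (not_anc_of_none hn)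

theorem isForest_cut2 {S A : Finset α} {p : α → Option α} {r : α} (h : IsForest S A p)
    (hr : p r = none) : IsForest ((S.erase r) \ desc r p) ((A.erase r) \ desc r p)
      (cut2 (desc r p) p) := by
  refine ⟨?_, ?_, ?_, ?_⟩
  · refine Subrelation.wf ?_ h.1
    intro w v hv
    unfold cut2 at hv
    split_ifs at hv
    exact hv
  · intro v hv
    by_cases h1 : v ∈ desc r p
    · simp [cut2, h1]
    · by_cases h2 : v = r
      · subst h2; simp [cut2, hr]
      · have h3 : v ∉ S := fun h3 => hv (by simp [h1, h2, h3])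
        simp [cut2, h1, h.2.1 v h3]
  · intro v w hv
    unfold cut2 at hv
    split_ifs at hv with h1
    have h4 : w ∉ desc r p := by
      intro h4
      apply h1
      rw [mem_desc] at h4 ⊢
      rw [anc_iff]
      exact ⟨w, hv, Or.inr h4⟩
    have h5 : w ≠ r := by
      rintro rfl
      apply h1
      rw [mem_desc, anc_iff]
      exact ⟨w, hv, Or.inl rfl⟩
    simp [h4, h5, h.2.2.1 _ _ hv]
  · intro v hv hn
    simp only [mem_sdiff, mem_erase] at hv ⊢
    unfold cut2 at hn
    rw [if_neg hv.2] at hn
    exact ⟨⟨hv.1.1, h.2.2.2 v hv.1.2 hn⟩, hv.2⟩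

theorem isForest_glue {S A U B : Finset α} {p₁ p₂ : α → Option α} {r : α} (hrS : r ∈ S)
    (hrA : r ∈ A) (hU : U ⊆ S.erase r) (h₁ : IsForest U B p₁)
    (h₂ : IsForest ((S.erase r) \ U) ((A.erase r) \ U) p₂) : IsForest S A (glue r U p₁ p₂) := by
  have hrU : r ∉ U := fun h => by simpa using hU h
  refine ⟨wf_glue h₁ h₂ (fun v hv => (mem_sdiff.1 hv).2) (by simp) hrU, ?_, ?_, ?_⟩
  · intro v hv
    have h1 : v ∉ U := fun h => hv (mem_of_mem_erase (hU h))
    have h2 : p₂ v = none := h₂.2.1 v (by simp [hv])
    simp [glue, h1, h2]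
  · intro v w hv
    unfold glue at hv
    split_ifs at hv with h1
    · rcases h : p₁ v with _ | w'
      · rw [h] at hv
        obtain rfl : r = w := by simpa using hv
        exact hrS
      · rw [h] at hv
        obtain rfl : w' = w := by simpa using hv
        exact mem_of_mem_erase (hU (h₁.2.2.1 _ _ h))
    · have := h₂.2.2.1 _ _ hv
      simp only [mem_sdiff, mem_erase] at this
      exact this.1.2
  · intro v hv hn
    unfold glue at hn
    split_ifs at hn with h1
    by_cases h2 : v = r
    · exact h2 ▸ hrA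
    · have := h₂.2.2.2 v (by simp [hv, h1, h2]) hn
      simp only [mem_sdiff, mem_erase] at this
      exact this.1.2

theorem glue_root {S A U B : Finset α} {p₁ p₂ : α → Option α} {r : α}
    (hU : U ⊆ S.erase r)
    (h₂ : IsForest ((S.erase r) \ U) ((A.erase r) \ U) p₂) : glue r U p₁ p₂ r = none := by
  have hrU : r ∉ U := fun h => by simpa using hU h
  simp [glue, hrU, h₂.2.1 r (by simp)]

theorem desc_glue {S A U B : Finset α} {p₁ p₂ : α → Option α} {r : α}
    (hU : U ⊆ S.erase r) (h₁ : IsForest U B p₁)
    (h₂ : IsForest ((S.erase r) \ U) ((A.erase r) \ U) p₂) : desc r (glue r U p₁ p₂) = U := by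
  have hrU : r ∉ U := fun h => by simpa using hU h
  ext v
  rw [mem_desc]
  by_cases hv : v ∈ U
  · rw [anc_glue_in h₁ h₂ (by simp) hrU hv]
    simp [hv]
  · rw [anc_glue_out h₂ (fun v hv => (mem_sdiff.1 hv).2) hv]
    simp only [hv, iff_false]
    intro h
    have : ∀ x, Anc p₂ v x → x ∈ (S.erase r) \ U := by
      intro x hx
      induction hx with
      | single h => exact h₂.2.2.1 _ _ h
      | tail _ h _ => exact h₂.2.2.1 _ _ h
    have := this r h
    simp at this

theorem glue_cut {S A : Finset α} {p : α → Option α} {r : α} (h : IsForest S A p)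
    (hr : p r = none) : glue r (desc r p) (cut1 r (desc r p) p) (cut2 (desc r p) p) = p := by
  funext v
  unfold glue cut1 cut2
  by_cases hv : v ∈ desc r p
  · simp only [hv, if_true]
    by_cases h2 : p v = some r
    · simp [h2]
    · simp only [h2, if_false]
      rcases h3 : p v with _ | w
      · exact absurd (mem_desc.1 hv) (not_anc_of_none h3)
      · simp
  · simp [hv]

theorem cut1_glue {U B : Finset α} {p₁ p₂ : α → Option α} {r : α} (hrU : r ∉ U)
    (h₁ : IsForest U B p₁) : cut1 r U (glue r U p₁ p₂) = p₁ := by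
  funext v
  unfold glue cut1
  by_cases hv : v ∈ U
  · simp only [hv, if_true]
    rcases h : p₁ v with _ | w
    · simp
    · have : w ≠ r := fun e => hrU (e ▸ h₁.2.2.1 _ _ h)
      simp [this]
  · simp [hv, h₁.2.1 v hv]

theorem cut2_glue {S' A' U : Finset α} {p₁ p₂ : α → Option α} {r : α}
    (hU : ∀ v ∈ S', v ∉ U) (h₂ : IsForest S' A' p₂) : cut2 U (glue r U p₁ p₂) = p₂ := by
  funext v
  unfold glue cut2
  by_cases hv : v ∈ U
  · simp only [hv, if_true]
    exact (h₂.2.1 v (fun h => hU v h hv)).symm
  · simp [hv]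

theorem desc_subset {S A : Finset α} {p : α → Option α} {r : α} (h : IsForest S A p)
    (hr : p r = none) : desc r p ⊆ S.erase r := by
  intro v hv
  rw [mem_desc] at hv
  rw [mem_erase]
  refine ⟨?_, anc_mem h hv⟩
  rintro rfl
  exact not_anc_of_none hr hv

theorem isForest_mono {S A B : Finset α} {p : α → Option α} (h : IsForest S A p) (hAB : A ⊆ B) :
    IsForest S B p :=
  ⟨h.1, h.2.1, h.2.2.1, fun v hv hn => hAB (h.2.2.2 v hv hn)⟩

theorem sum_root {q : ℝ} {S A : Finset α} {r : α} (hrS : r ∈ S) (hrA : r ∈ A) :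
    ∑ p ∈ (forests S A).filter (fun p => p r = none), q ^ inv p
      = ∑ U ∈ (S.erase r).powerset, q ^ #{u ∈ U | u < r} *
        (W q U U * W q ((S.erase r) \ U) ((A.erase r) \ U)) := by
  rw [← Finset.sum_fiberwise_of_maps_to (g := desc r) (t := (S.erase r).powerset)]
  · refine Finset.sum_congr rfl fun U hU => ?_
    rw [mem_powerset] at hU
    have hrU : r ∉ U := fun h => by simpa using hU h
    unfold W
    rw [Finset.sum_mul_sum, ← Finset.sum_product', Finset.mul_sum]
    refine Finset.sum_bij' (fun p _ => (cut1 r U p, cut2 U p)) (fun x _ => glue r U x.1 x.2)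
      ?_ ?_ ?_ ?_ ?_
    · intro p hp
      simp only [mem_filter, mem_forests] at hp
      obtain ⟨⟨h, hr⟩, rfl⟩ := hp
      rw [mem_product, mem_forests, mem_forests]
      exact ⟨isForest_mono (isForest_cut1 h hr) (filter_subset _ _), isForest_cut2 h hr⟩
    · intro x hx
      rw [mem_product, mem_forests, mem_forests] at hx
      simp only [mem_filter, mem_forests]
      exact ⟨⟨isForest_glue hrS hrA hU hx.1 hx.2, glue_root (B := U) hU hx.2⟩,
        desc_glue hU hx.1 hx.2⟩
    · intro p hp
      simp only [mem_filter, mem_forests] at hp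
      obtain ⟨⟨h, hr⟩, rfl⟩ := hp
      exact glue_cut h hr
    · intro x hx
      rw [mem_product, mem_forests, mem_forests] at hx
      ext1
      · exact cut1_glue hrU hx.1
      · exact cut2_glue (fun v hv => (mem_sdiff.1 hv).2) hx.2
    · intro p hp
      simp only [mem_filter, mem_forests] at hp
      obtain ⟨⟨h, hr⟩, rfl⟩ := hp
      have h1 := isForest_cut1 h hr
      have h2 := isForest_cut2 h hr
      have := inv_glue (r := r) h1 h2 (fun v hv => (mem_sdiff.1 hv).2) (by simp) hrU
      rw [glue_cut h hr] at this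
      rw [this, pow_add, pow_add, mul_assoc]
  · intro p hp
    simp only [mem_filter, mem_forests] at hp
    rw [mem_powerset]
    exact desc_subset hp.1 hp.2

theorem W_rec {q : ℝ} {S A : Finset α} {r : α} (hrS : r ∈ S) (hrA : r ∈ A) :
    W q S A = W q S (A.erase r) + ∑ U ∈ (S.erase r).powerset, q ^ #{u ∈ U | u < r} *
        (W q U U * W q ((S.erase r) \ U) ((A.erase r) \ U)) := by
  rw [← sum_root hrS hrA]
  unfold W
  rw [← Finset.sum_filter_not_add_sum_filter (forests S A) (fun p => p r = none)]
  congr 1
  refine Finset.sum_congr ?_ fun _ _ => rfl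
  ext p
  simp only [mem_filter, mem_forests]
  constructor
  · rintro ⟨h, hr⟩
    refine ⟨h.1, h.2.1, h.2.2.1, fun v hv hn => ?_⟩
    rw [mem_erase]
    refine ⟨?_, h.2.2.2 v hv hn⟩
    rintro rfl
    exact hr hn
  · intro h
    refine ⟨isForest_mono h (erase_subset _ _), fun hr => ?_⟩
    have := h.2.2.2 r hrS hr
    simp at this

theorem W_empty_roots {q : ℝ} {S : Finset α} (hS : S.Nonempty) : W q S (∅ : Finset α) = 0 := by
  unfold W
  rw [Finset.sum_eq_zero]
  intro p hp
  exfalso
  rw [mem_forests] at hp
  obtain ⟨v, hv⟩ := hS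
  have key : ∀ v, v ∉ S := by
    intro v
    induction v using hp.1.induction with
    | _ v ih =>
      intro hv
      rcases h : p v with _ | w
      · have := hp.2.2.2 v hv h
        simp at this
      · exact ih w h (hp.2.2.1 _ _ h)
  exact key v hv

theorem W_empty {q : ℝ} {A : Finset α} : W q (∅ : Finset α) A = 1 := by
  unfold W
  have : forests (∅ : Finset α) A = {fun _ => none} := by
    ext p
    rw [mem_forests, mem_singleton]
    constructor
    · intro h
      funext v
      exact h.2.1 v (by simp)
    · rintro rfl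
      refine ⟨⟨fun v => ⟨_, fun w hw => by simp at hw⟩⟩, by simp, by simp, by simp⟩
  rw [this, Finset.sum_singleton]
  have : inv (fun _ : α => (none : Option α)) = 0 := by
    unfold inv
    refine Finset.sum_eq_zero fun y _ => ?_
    rw [Finset.card_eq_zero, Finset.filter_eq_empty_iff]
    rintro x - ⟨_, h⟩
    exact not_anc_of_none rfl h
  rw [this, pow_zero]

end Pool.Agent.X234.PK
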