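import Pool.Agent.X234.PK.Park

/-!
Uprooted trees and the forests obtained by removing the root.
-/

namespace Pool.Agent.X234.PK

open Finset

open scoped Classical

variable {α : Type*} [Fintype α] [LinearOrder α]

/-- `p` is the parent function of a tree with root `r`, all of whose root-children are
smaller than `r` -/
def IsUpr (r : α) (p : α → Option α) : Prop :=
  (p r = none ∧ ∀ v, v ≠ r → Anc p v r) ∧ ∀ v, p v = some r → v < r

omit [Fintype α] [LinearOrder α] in
theorem wf_of_tree {r : α} {p : α → Option α} (h : p r = none ∧ ∀ v, v ≠ r → Anc p v r) :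
    WellFounded (fun w v => p v = some w) := by
  have hr : Acc (fun w v => p v = some w) r := ⟨_, fun w hw => by
    have hw' : p r = some w := hw
    rw [h.1] at hw'; cases hw'⟩
  refine ⟨fun v => ?_⟩
  by_cases hv : v = r
  · exact hv ▸ hr
  · have hA : Relation.TransGen (fun x y => p x = some y) v r := h.2 v hv
    clear hv
    induction hA using Relation.TransGen.head_induction_on with
    | single hab =>
      refine ⟨_, fun w hw => ?_⟩
      have hw' : p _ = some w := hw
      rw [hab] at hw'
      obtain rfl := Option.some.inj hw'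
      exact hr
    | head hab _ ih =>
      refine ⟨_, fun w hw => ?_⟩
      have hw' : p _ = some w := hw
      rw [hab] at hw'
      obtain rfl := Option.some.inj hw'
      exact ih

theorem isForest_of_tree {r : α} {p : α → Option α}
    (h : p r = none ∧ ∀ v, v ≠ r → Anc p v r) : IsForest univ {r} p := by
  refine ⟨wf_of_tree h, fun v hv => absurd (mem_univ v) hv, fun _ w _ => mem_univ w,
    fun v _ hn => ?_⟩
  rw [mem_singleton]
  by_contra hc
  exact not_anc_of_none hn (h.2 v hc)

theorem desc_of_tree {r : α} {p : α → Option α}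
    (h : p r = none ∧ ∀ v, v ≠ r → Anc p v r) : desc r p = univ.erase r := by
  ext v
  rw [mem_desc, mem_erase]
  constructor
  · intro hv
    refine ⟨?_, mem_univ v⟩
    rintro rfl
    exact not_anc_of_none h.1 hv
  · intro hv
    exact h.2 v hv.1

noncomputable def sinv (r : α) (p : α → Option α) : ℕ :=
  #((univ : Finset (α × α)).filter (fun x => x.1 ≠ r ∧ x.2 ≠ r ∧ Anc p x.2 x.1 ∧ x.2 < x.1))

theorem inv_eq_card (p : α → Option α) :
    inv p = #((univ : Finset (α × α)).filter (fun x => Anc p x.2 x.1 ∧ x.2 < x.1)) := by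
  unfold inv
  rw [Finset.card_filter, Fintype.sum_prod_type, Finset.sum_comm]
  refine Finset.sum_congr rfl fun y _ => ?_
  rw [Finset.card_filter]
  refine Finset.sum_congr rfl fun x _ => ?_
  simp only [and_comm]

omit [Fintype α] [LinearOrder α] in
theorem isForest_none (A : Finset α) : IsForest (∅ : Finset α) A (fun _ => none) :=
  ⟨⟨fun v => ⟨_, fun w hw => by simp at hw⟩⟩, by simp, by simp, by simp⟩

theorem sum_uprooted_root (q : ℝ) (r : α) :
    ∑ p ∈ (univ : Finset (α → Option α)).filter (fun p => IsUpr r p), q ^ sinv r p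
      = W q (univ.erase r) (univ.filter (fun s => s < r)) := by
  unfold W
  have hrU : r ∉ (univ : Finset α).erase r := notMem_erase _ _
  have hS : ((univ : Finset α).erase r) \ (univ.erase r) = ∅ := Finset.sdiff_self _
  have hnone : IsForest (((univ : Finset α).erase r) \ (univ.erase r))
      ((({r} : Finset α).erase r) \ (univ.erase r)) (fun _ => none) := by
    rw [hS]; exact isForest_none _
  refine Finset.sum_bij' (fun p _ => cut1 r (univ.erase r) p)
    (fun p₁ _ => glue r (univ.erase r) p₁ (fun _ => none)) ?_ ?_ ?_ ?_ ?_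
  · intro p hp
    rw [mem_filter] at hp
    have h := hp.2
    have h1 := isForest_cut1 (isForest_of_tree h.1) h.1.1
    rw [desc_of_tree h.1] at h1
    rw [mem_forests]
    refine isForest_mono h1 ?_
    intro v hv
    rw [mem_filter] at hv ⊢
    exact ⟨mem_univ v, h.2 v hv.2⟩
  · intro p₁ hp
    rw [mem_forests] at hp
    rw [mem_filter]
    refine ⟨mem_univ _, ⟨?_, ?_⟩, ?_⟩
    · exact glue_root (S := univ) (A := {r}) (B := univ) (p₁ := p₁) (le_refl _) hnone
    · intro v hv
      rw [anc_glue_in hp hnone (by rw [hS]; simp) hrU (mem_erase.2 ⟨hv, mem_univ v⟩)]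
      exact Or.inl rfl
    · intro v hv
      unfold glue at hv
      split_ifs at hv with h1
      rcases h : p₁ v with _ | w
      · have := hp.2.2.2 v h1 h
        exact (mem_filter.1 this).2
      · rw [h] at hv
        have hw := hp.2.2.1 _ _ h
        obtain rfl : w = r := by simpa using hv
        exact absurd hw hrU
  · intro p hp
    rw [mem_filter] at hp
    have h := hp.2
    have h1 := glue_cut (isForest_of_tree h.1) h.1.1
    rw [desc_of_tree h.1] at h1
    have h2 : cut2 (univ.erase r) p = fun _ => none := by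
      funext v
      unfold cut2
      by_cases hv : v = r
      · subst hv; simp [h.1.1]
      · simp [hv]
    rw [h2] at h1
    exact h1
  · intro p₁ hp
    rw [mem_forests] at hp
    exact cut1_glue hrU hp
  · intro p hp
    rw [mem_filter] at hp
    have h := hp.2
    have h1 := isForest_cut1 (isForest_of_tree h.1) h.1.1
    rw [desc_of_tree h.1] at h1
    have h3 := glue_cut (isForest_of_tree h.1) h.1.1
    rw [desc_of_tree h.1] at h3
    have h2 : cut2 (univ.erase r) p = fun _ => none := by
      funext v
      unfold cut2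
      by_cases hv : v = r
      · subst hv; simp [h.1.1]
      · simp [hv]
    rw [h2] at h3
    congr 1
    rw [inv_eq_card]
    unfold sinv
    congr 1
    ext x
    simp only [mem_filter, mem_univ, true_and]
    have key : ∀ y, y ≠ r → ∀ z, (Anc p y z ↔ z = r ∨ Anc (cut1 r (univ.erase r) p) y z) := by
      intro y hy z
      conv_lhs => rw [← h3]
      exact anc_glue_in h1 hnone (by rw [hS]; simp) hrU (mem_erase.2 ⟨hy, mem_univ y⟩)
    have himg : ∀ y z, Anc (cut1 r (univ.erase r) p) y z → z ∈ (univ : Finset α).erase r := by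
      intro y z hz
      induction hz with
      | single h => exact h1.2.2.1 _ _ h
      | tail _ h _ => exact h1.2.2.1 _ _ h
    constructor
    · rintro ⟨h4, h5, h6, h7⟩
      rw [key _ h5] at h6
      exact ⟨h6.resolve_left h4, h7⟩
    · rintro ⟨h4, h5⟩
      have h6 : x.2 ≠ r := (mem_erase.1 (anc_mem h1 h4)).1
      have h7 : x.1 ≠ r := (mem_erase.1 (himg _ _ h4)).1
      exact ⟨h7, h6, (key _ h6 _).2 (Or.inr h4), h5⟩

theorem sum_uprooted (q : ℝ) :
    ∑ T ∈ (univ : Finset (α × (α → Option α))).filter (fun T => IsUpr T.1 T.2),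
      q ^ sinv T.1 T.2 = Upr q (univ : Finset α) := by
  rw [Finset.sum_filter, Fintype.sum_prod_type]
  unfold Upr
  refine Finset.sum_congr rfl fun r _ => ?_
  rw [← sum_uprooted_root, Finset.sum_filter]

theorem enum_id {q : ℝ} (hq : 1 < q) [Nonempty α] :
    ∑ T ∈ (univ : Finset (α × (α → Option α))).filter (fun T => IsUpr T.1 T.2),
      q ^ sinv T.1 T.2
      = q ^ ((Fintype.card α).choose 2 + 1) * ∑ b ∈ sph (univ : Finset α), q⁻¹ ^ (∑ v, b v) := by
  rw [sum_uprooted, unique_star hq (X := Upr q) (Y := XX q) (fun S => by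
    rw [star_PP hq, star]) univ]
  unfold XX PP
  rw [if_pos univ_nonempty, card_univ]

open Polynomial in
/-- the equality of the two counts, by comparing coefficients -/
theorem main_count [Nonempty α] (k : ℕ) :
    #((univ : Finset (α × (α → Option α))).filter
        (fun T => IsUpr T.1 T.2 ∧ sinv T.1 T.2 = k))
      = #((sph (univ : Finset α)).filter
        (fun b => (∑ v, b v) + k = (Fintype.card α).choose 2 + 1)) := by
  set n := Fintype.card α with hn
  set N := n * n with hN
  have hle : ∀ b ∈ sph (univ : Finset α), ∑ v, b v ≤ N := by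
    intro b hb
    unfold sph at hb
    rw [mem_filter, mem_box] at hb
    calc ∑ v, b v ≤ ∑ _v : α, n := Finset.sum_le_sum fun v _ => by
          have := (hb.1.1 v (mem_univ v)).2
          rwa [card_univ] at this
      _ = N := by rw [Finset.sum_const, card_univ, smul_eq_mul]
  have hpoly : (∑ T ∈ (univ : Finset (α × (α → Option α))).filter (fun T => IsUpr T.1 T.2),
      (X : ℝ[X]) ^ (sinv T.1 T.2 + N))
      = ∑ b ∈ sph (univ : Finset α), (X : ℝ[X]) ^ (n.choose 2 + 1 + N - ∑ v, b v) := by
    refine Polynomial.eq_of_infinite_eval_eq _ _ (Set.Infinite.mono ?_ (Set.Ioi_infinite (1 : ℝ)))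
    intro q hq
    have hq' : 1 < q := hq
    have hq0 : q ≠ 0 := by positivity
    simp only [Set.mem_ofPred_eq, eval_finsetSum, eval_pow, eval_X]
    have := enum_id (α := α) hq'
    have e1 : ∀ T : α × (α → Option α), q ^ (sinv T.1 T.2 + N) = q ^ N * q ^ (sinv T.1 T.2) :=
      fun T => by rw [pow_add, mul_comm]
    rw [Finset.sum_congr rfl (fun T _ => e1 T), ← Finset.mul_sum, this, ← hn, ← mul_assoc,
      Finset.mul_sum]
    refine Finset.sum_congr rfl fun b hb => ?_
    have hb' := hle b hb
    obtain ⟨c, hc⟩ := Nat.exists_eq_add_of_le hb'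
    have e2 : n.choose 2 + 1 + N - ∑ v, b v = n.choose 2 + 1 + c := by omega
    rw [e2, hc, pow_add, pow_add q (n.choose 2 + 1) c, inv_pow]
    field_simp
  have hc := congrArg (fun P => P.coeff (k + N)) hpoly
  simp only [Polynomial.finsetSum_coeff, Polynomial.coeff_X_pow, Finset.sum_boole] at hc
  have hc' := Nat.cast_injective hc
  have e1 : (univ : Finset (α × (α → Option α))).filter
        (fun T => IsUpr T.1 T.2 ∧ sinv T.1 T.2 = k)
      = ((univ : Finset (α × (α → Option α))).filter (fun T => IsUpr T.1 T.2)).filter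
        (fun T => k + N = sinv T.1 T.2 + N) := by
    ext T
    simp only [mem_filter, mem_univ, true_and]
    constructor
    · rintro ⟨h1, h2⟩; exact ⟨h1, by omega⟩
    · rintro ⟨h1, h2⟩; exact ⟨h1, by omega⟩
  have e2 : (sph (univ : Finset α)).filter
        (fun b => (∑ v, b v) + k = n.choose 2 + 1)
      = (sph (univ : Finset α)).filter (fun b => k + N = n.choose 2 + 1 + N - ∑ v, b v) := by
    refine filter_congr fun b hb => ?_
    have := hle b hb
    omega
  rw [e1, e2]
  exact hc'

end Pool.Agent.X234.PK
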